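import Pool.Agent.H44.NQ.Defs

/-!
# Packing disjoint patterns of nonattacking queens: `Q n ≤ n` and patterns from functions
-/

set_option autoImplicit false

namespace Pool.Agent.H44.NQ

/-- the conditions on a function `row → column` -/
def Good (n : ℕ) (p : Fin n → Fin n) : Prop :=
  ∀ i i', i ≠ i' → p i ≠ p i' ∧ ((i : ℕ) : ℤ) - ((p i : ℕ) : ℤ) ≠ ((i' : ℕ) : ℤ) - ((p i' : ℕ) : ℤ) ∧
    ((i : ℕ) : ℤ) + ((p i : ℕ) : ℤ) ≠ ((i' : ℕ) : ℤ) + ((p i' : ℕ) : ℤ)

theorem isPattern_of_good {n : ℕ} {p : Fin n → Fin n} (hp : Good n p) :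
    IsPattern n (Finset.univ.image fun i => (i, p i)) := by
  refine ⟨?_, ?_⟩
  · rw [Finset.card_image_of_injective _ (fun a b h => (Prod.mk.inj h).1)]
    simp
  · intro x hx y hy hxy
    simp only [Finset.mem_image, Finset.mem_univ, true_and] at hx hy
    obtain ⟨i, rfl⟩ := hx
    obtain ⟨i', rfl⟩ := hy
    have hne : i ≠ i' := fun h => hxy (by rw [h])
    exact ⟨hne, hp i i' hne⟩

theorem exists_fun {n : ℕ} {s : Finset (Fin n × Fin n)} (hs : IsPattern n s) :
    ∃ p : Fin n → Fin n, Good n p ∧ ∀ i, (i, p i) ∈ s := by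
  obtain ⟨hc, hq⟩ := hs
  have hinj : Set.InjOn Prod.fst (s : Set (Fin n × Fin n)) := by
    intro x hx y hy hxy
    by_contra hne
    exact (hq x hx y hy hne).1 hxy
  have himg : s.image Prod.fst = Finset.univ := by
    apply Finset.eq_univ_of_card
    rw [Finset.card_image_of_injOn hinj, hc, Fintype.card_fin]
  have hex : ∀ i : Fin n, ∃ j : Fin n, (i, j) ∈ s := by
    intro i
    have : i ∈ s.image Prod.fst := by rw [himg]; exact Finset.mem_univ i
    obtain ⟨x, hx, hxi⟩ := Finset.mem_image.mp this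
    exact ⟨x.2, by rw [← hxi]; exact hx⟩
  choose p hp using hex
  refine ⟨p, ?_, hp⟩
  intro i i' hne
  have h := hq _ (hp i) _ (hp i') (fun h => hne (Prod.mk.inj h).1)
  exact h.2

theorem packs_iff {n m : ℕ} : Packs n m ↔
    ∃ p : Fin m → Fin n → Fin n, (∀ a, Good n (p a)) ∧ ∀ a b, a ≠ b → ∀ i, p a i ≠ p b i := by
  constructor
  · rintro ⟨f, hf, hd⟩
    choose p hp hm using fun a => exists_fun (hf a)
    refine ⟨p, hp, ?_⟩
    intro a b hab i h
    have h1 := hm a i
    have h2 := hm b i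
    rw [← h] at h2
    exact (Finset.disjoint_left.mp (hd a b hab)) h1 h2
  · rintro ⟨p, hp, hd⟩
    refine ⟨fun a => Finset.univ.image fun i => (i, p a i), fun a => isPattern_of_good (hp a), ?_⟩
    intro a b hab
    rw [Finset.disjoint_left]
    intro x hx hy
    simp only [Finset.mem_image, Finset.mem_univ, true_and] at hx hy
    obtain ⟨i, rfl⟩ := hx
    obtain ⟨i', h⟩ := hy
    obtain ⟨h1, h2⟩ := Prod.mk.inj h
    subst h1
    exact hd a b hab i' h2.symm

theorem packs_le {n m : ℕ} (hn : 1 ≤ n) (h : Packs n m) : m ≤ n := by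
  obtain ⟨p, _, hd⟩ := packs_iff.mp h
  have hinj : Function.Injective fun a : Fin m => p a ⟨0, hn⟩ := by
    intro a b hab
    by_contra hne
    exact hd a b hne _ hab
  have := Fintype.card_le_of_injective _ hinj
  simpa using this

theorem q_le {n : ℕ} (hn : 1 ≤ n) : Q n ≤ n :=
  csSup_le' (fun _ h => packs_le hn h)

theorem le_q {n m : ℕ} (hn : 1 ≤ n) (h : Packs n m) : m ≤ Q n :=
  le_csSup ⟨n, fun _ h => packs_le hn h⟩ h

theorem q_le_of {n m : ℕ} (h : ∀ l, Packs n l → l ≤ m) : Q n ≤ m :=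
  csSup_le' (fun _ h' => h _ h')

theorem Packs.mono {n m l : ℕ} (h : Packs n m) (hl : l ≤ m) : Packs n l := by
  obtain ⟨f, hf, hd⟩ := h
  refine ⟨fun a => f (Fin.castLE hl a), fun a => hf _, ?_⟩
  intro a b hab
  exact hd _ _ (fun h => hab (Fin.castLE_injective hl h))

end Pool.Agent.H44.NQ
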