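import Mathlib

/-!
# Packing disjoint patterns of nonattacking queens: definitions
-/

set_option autoImplicit false

namespace Pool.Agent.H44.NQ

/-- `s` is a pattern of `n` nonattacking queens on the `n × n` board: a set of `n` squares, no two
of which share a row, a column or a diagonal (no wrap-around). -/
def IsPattern (n : ℕ) (s : Finset (Fin n × Fin n)) : Prop :=
  s.card = n ∧ ∀ p ∈ s, ∀ q ∈ s, p ≠ q → p.1 ≠ q.1 ∧ p.2 ≠ q.2 ∧
    (p.1 : ℤ) - (p.2 : ℤ) ≠ (q.1 : ℤ) - (q.2 : ℤ) ∧ (p.1 : ℤ) + (p.2 : ℤ) ≠ (q.1 : ℤ) + (q.2 : ℤ)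

/-- `m` pairwise disjoint patterns sit simultaneously on the `n × n` board. -/
def Packs (n m : ℕ) : Prop :=
  ∃ f : Fin m → Finset (Fin n × Fin n), (∀ a, IsPattern n (f a)) ∧
    ∀ a b, a ≠ b → Disjoint (f a) (f b)

/-- `Q n`: the largest number of pairwise disjoint patterns of `n` nonattacking queens. -/
noncomputable def Q (n : ℕ) : ℕ := sSup {m | Packs n m}

end Pool.Agent.H44.NQ
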