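import Pool.Agent.H44.NQ.Basic

/-!
# The pattern `3 i + 4 (w - 1) + j = c` on the board of order `3 k`, `k` odd
-/

set_option autoImplicit false

namespace Pool.Agent.H44.NQ

/-- `k x = 0 < x < ..`: no multiple of `n` strictly between `0` and `n` -/
theorem no_mult {n T x : ℤ} (h : x = n * T) (h0 : 0 < x) (h1 : x < n) : False := by
  have hn : 0 < n := by linarith
  rcases le_or_gt T 0 with hT | hT
  · nlinarith
  · nlinarith

/-- a multiple of `n` strictly between `0` and `2 n` is `n` -/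
theorem mult_eq {n T x : ℤ} (hn : 0 < n) (h : x = n * T) (h0 : 0 < x) (h1 : x < 2 * n) : x = n := by
  have hT0 : 0 < T := by
    by_contra hT
    have : T ≤ 0 := not_lt.mp hT
    nlinarith
  have hT1 : T < 2 := by
    by_contra hT
    have : 2 ≤ T := not_lt.mp hT
    nlinarith
  have : T = 1 := by omega
  rw [h, this, mul_one]

theorem four_dvd {k T x : ℤ} (hk : k % 2 = 1) (h : 4 * x = 3 * k * T) : ∃ s, x = 3 * k * s := by
  have h4 : (4 : ℤ) ∣ (3 * k) * T := ⟨x, by linarith⟩
  have hc : IsCoprime (4 : ℤ) (3 * k) := by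
    have : IsCoprime (2 : ℤ) (3 * k) := by
      refine ⟨-(3 * (k / 2) + 1), 1, ?_⟩
      have h2 : k = 2 * (k / 2) + 1 := by omega
      linarith
    have h3 := this.pow_left (m := 2)
    norm_num at h3
    exact h3
  obtain ⟨s, hs⟩ := hc.dvd_of_dvd_mul_left h4
  refine ⟨s, ?_⟩
  rw [hs] at h
  linarith

theorem two_dvd {k T x : ℤ} (hk : k % 2 = 1) (h : 2 * x = 3 * k * T) : ∃ s, x = 3 * k * s := by
  obtain ⟨s, hs⟩ := four_dvd (k := k) (T := 2 * T) (x := x) hk (by linarith)
  exact ⟨s, hs⟩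

/-- the three conditions for two rows `i < i'` of one class `c` -/
theorem rows {k c i i' w w' j j' t t' : ℤ} (hk : 5 ≤ k) (hodd : k % 2 = 1) (hc : 5 ≤ c)
    (hc' : c ≤ 3 * k - 9) (hi : k * w ≤ i) (hi2 : i < k * w + k) (hw : 0 ≤ w) (hw2 : w ≤ 2)
    (hi' : k * w' ≤ i') (hi2' : i' < k * w' + k) (hw' : 0 ≤ w') (hw2' : w' ≤ 2)
    (hj : 0 ≤ j) (hj2 : j < 3 * k) (hj' : 0 ≤ j') (hj2' : j' < 3 * k)
    (he : 3 * i + 4 * w + 3 * k * t + j = c + 4 + 9 * k)
    (he' : 3 * i' + 4 * w' + 3 * k * t' + j' = c + 4 + 9 * k) (hlt : i < i') :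
    j ≠ j' ∧ i - j ≠ i' - j' ∧ i + j ≠ i' + j' := by
  have hww : w ≤ w' := by
    by_contra hcon
    have : w' + 1 ≤ w := by omega
    nlinarith
  refine ⟨?_, ?_, ?_⟩
  · intro h
    subst h
    -- 3 (i' - i) + 4 (w' - w) = 3 k (t - t')
    have h1 : w' = w := by
      have : (3 : ℤ) ∣ 4 * (w' - w) := ⟨k * (t - t') - (i' - i), by linarith⟩
      omega
    subst h1
    exact no_mult (n := k) (T := t - t') (x := i' - i) (by linarith) (by linarith) (by linarith)
  · intro h
    obtain ⟨s, hs⟩ := four_dvd (k := k) (T := t - t') (x := (i' - i) + (w' - w)) hodd (by linarith)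
    have hn : (i' - i) + (w' - w) = 3 * k := by
      refine mult_eq (n := 3 * k) (T := s) (by linarith) hs (by linarith) ?_
      interval_cases w <;> interval_cases w' <;> linarith
    have h4 : 3 * i + j - (c + 4) = 3 * k * (3 - t) - 4 * w := by linarith
    interval_cases w <;> interval_cases w' <;> first
      | (exfalso; omega)
      | (refine no_mult (n := 3 * k) (T := t - 3) (x := c + 4 - 3 * i - j) (by linarith) ?_ ?_ <;> omega)
  · intro h
    obtain ⟨s, hs⟩ := two_dvd (k := k) (T := t - t') (x := (i' - i) + 2 * (w' - w)) hodd (by linarith)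
    have hn : (i' - i) + 2 * (w' - w) = 3 * k := by
      refine mult_eq (n := 3 * k) (T := s) (by linarith) hs (by linarith) ?_
      interval_cases w <;> interval_cases w' <;> linarith
    interval_cases w <;> interval_cases w' <;> first
      | (exfalso; omega)
      | (refine no_mult (n := 3 * k) (T := t - 2) (x := c + 4 + 3 * k - 3 * i - j) (by linarith) ?_ ?_ <;> omega)

end Pool.Agent.H44.NQ
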