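import Pool.Agent.H44.NQ.Line

/-!
# `n - 13 ≤ Q n` for `n = 3 k`, `k ≥ 5` odd
-/

set_option autoImplicit false

namespace Pool.Agent.H44.NQ

/-- the column of the queen of class `c` in row `i` -/
def col (k c i : ℕ) : ℕ := (c + 4 + 9 * k - (3 * i + 4 * (i / k))) % (3 * k)

theorem div_le_two {k i : ℕ} (hk : 5 ≤ k) (hi : i < 3 * k) : i / k ≤ 2 := by
  have : i / k < 3 := by
    rw [Nat.div_lt_iff_lt_mul (by omega)]
    exact hi
  omega

theorem col_spec {k c i : ℕ} (hk : 5 ≤ k) (hc : 5 ≤ c) (hi : i < 3 * k) :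
    ∃ t : ℕ, 3 * i + 4 * (i / k) + 3 * k * t + col k c i = c + 4 + 9 * k := by
  have hw := div_le_two hk hi
  refine ⟨(c + 4 + 9 * k - (3 * i + 4 * (i / k))) / (3 * k), ?_⟩
  have h := Nat.div_add_mod (c + 4 + 9 * k - (3 * i + 4 * (i / k))) (3 * k)
  unfold col
  omega

theorem col_lt {k c i : ℕ} (hk : 5 ≤ k) : col k c i < 3 * k := Nat.mod_lt _ (by omega)

theorem class_lt {k c i i' : ℕ} (hk : 5 ≤ k) (hodd : k % 2 = 1) (hc : 5 ≤ c) (hc' : c + 9 ≤ 3 * k)
    (hi : i < 3 * k) (hi' : i' < 3 * k) (hlt : i < i') :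
    ((col k c i : ℕ) : ℤ) ≠ ((col k c i' : ℕ) : ℤ) ∧
      (i : ℤ) - ((col k c i : ℕ) : ℤ) ≠ (i' : ℤ) - ((col k c i' : ℕ) : ℤ) ∧
      (i : ℤ) + ((col k c i : ℕ) : ℤ) ≠ (i' : ℤ) + ((col k c i' : ℕ) : ℤ) := by
  obtain ⟨t, ht⟩ := col_spec hk hc hi
  obtain ⟨t', ht'⟩ := col_spec hk hc hi'
  have hw := div_le_two hk hi
  have hw' := div_le_two hk hi'
  have h1 := Nat.div_add_mod i k
  have h2 := Nat.mod_lt i (show 0 < k by omega)
  have h1' := Nat.div_add_mod i' k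
  have h2' := Nat.mod_lt i' (show 0 < k by omega)
  have hj := col_lt (k := k) (c := c) (i := i) hk
  have hj' := col_lt (k := k) (c := c) (i := i') hk
  refine rows (k := k) (c := c) (i := i) (i' := i') (w := ((i / k : ℕ) : ℤ)) (w' := ((i' / k : ℕ) : ℤ))
    (t := t) (t' := t') (by exact_mod_cast hk) (by omega) (by exact_mod_cast hc) (by omega) ?_ ?_
    (by positivity) (by exact_mod_cast hw) ?_ ?_ (by positivity) (by exact_mod_cast hw')
    (by positivity) (by exact_mod_cast hj) (by positivity) (by exact_mod_cast hj')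
    (by exact_mod_cast ht) (by exact_mod_cast ht') (by exact_mod_cast hlt)
  · have : k * (i / k) ≤ i := by omega
    exact_mod_cast this
  · have : i < k * (i / k) + k := by omega
    exact_mod_cast this
  · have : k * (i' / k) ≤ i' := by omega
    exact_mod_cast this
  · have : i' < k * (i' / k) + k := by omega
    exact_mod_cast this

/-- the pattern of class `c` -/
def pat (k : ℕ) (hk : 5 ≤ k) (c : ℕ) (i : Fin (3 * k)) : Fin (3 * k) := ⟨col k c i, col_lt hk⟩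

theorem good_pat {k : ℕ} (hk : 5 ≤ k) (hodd : k % 2 = 1) {c : ℕ} (hc : 5 ≤ c) (hc' : c + 9 ≤ 3 * k) :
    Good (3 * k) (pat k hk c) := by
  intro i i' hne
  have hne' : (i : ℕ) ≠ (i' : ℕ) := fun h => hne (Fin.ext h)
  rcases lt_or_gt_of_ne hne' with h | h
  · obtain ⟨a, b, d⟩ := class_lt hk hodd hc hc' i.2 i'.2 h
    refine ⟨fun e => a ?_, b, d⟩
    exact congrArg (fun x : Fin (3 * k) => ((x : ℕ) : ℤ)) e
  · obtain ⟨a, b, d⟩ := class_lt hk hodd hc hc' i'.2 i.2 h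
    refine ⟨fun e => a ?_, b.symm, d.symm⟩
    exact (congrArg (fun x : Fin (3 * k) => ((x : ℕ) : ℤ)) e).symm

theorem pat_ne {k : ℕ} (hk : 5 ≤ k) {c c' : ℕ} (hc : 5 ≤ c) (hc' : c + 9 ≤ 3 * k) (hd : 5 ≤ c')
    (hd' : c' + 9 ≤ 3 * k) (hne : c ≠ c') (i : Fin (3 * k)) : pat k hk c i ≠ pat k hk c' i := by
  intro h
  have h0 : col k c i = col k c' i := congrArg Fin.val h
  obtain ⟨t, ht⟩ := col_spec (c := c) hk hc i.2
  obtain ⟨t', ht'⟩ := col_spec (c := c') hk hd i.2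
  rcases lt_or_gt_of_ne hne with h | h
  · refine no_mult (n := 3 * k) (T := (t' : ℤ) - t) (x := (c' : ℤ) - c) ?_ (by omega) (by omega)
    rw [h0] at ht
    have e1 : (3 * i + 4 * ((i : ℕ) / k : ℕ) + 3 * k * t + col k c' i : ℤ) = c + 4 + 9 * k := by
      exact_mod_cast ht
    have e2 : (3 * i + 4 * ((i : ℕ) / k : ℕ) + 3 * k * t' + col k c' i : ℤ) = c' + 4 + 9 * k := by
      exact_mod_cast ht'
    linarith
  · refine no_mult (n := 3 * k) (T := (t : ℤ) - t') (x := (c : ℤ) - c') ?_ (by omega) (by omega)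
    rw [h0] at ht
    have e1 : (3 * i + 4 * ((i : ℕ) / k : ℕ) + 3 * k * t + col k c' i : ℤ) = c + 4 + 9 * k := by
      exact_mod_cast ht
    have e2 : (3 * i + 4 * ((i : ℕ) / k : ℕ) + 3 * k * t' + col k c' i : ℤ) = c' + 4 + 9 * k := by
      exact_mod_cast ht'
    linarith

theorem packs_lower {k : ℕ} (hk : 5 ≤ k) (hodd : k % 2 = 1) : Packs (3 * k) (3 * k - 13) := by
  rw [packs_iff]
  refine ⟨fun a => pat k hk (a + 5), ?_, ?_⟩
  · intro a
    have := a.2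
    exact good_pat hk hodd (by omega) (by omega)
  · intro a b hab i
    have ha := a.2
    have hb := b.2
    exact pat_ne hk (by omega) (by omega) (by omega) (by omega)
      (fun h => hab (Fin.ext (by omega))) i

/-- `n - 13 ≤ Q n ≤ n` for `n = 6 m + 3 ≥ 15` -/
theorem bounds (m : ℕ) (hm : 2 ≤ m) : 6 * m + 3 ≤ Q (6 * m + 3) + 13 ∧ Q (6 * m + 3) ≤ 6 * m + 3 := by
  refine ⟨?_, q_le (by omega)⟩
  have h := le_q (n := 3 * (2 * m + 1)) (by omega) (packs_lower (k := 2 * m + 1) (by omega) (by omega))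
  have e : 3 * (2 * m + 1) = 6 * m + 3 := by ring
  rw [e] at h
  omega

end Pool.Agent.H44.NQ
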