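import Pool.Agent.H44.NQ.NineDefs

/-!
# Nine queens: the search, part 5 of 6 (computation)
-/

set_option autoImplicit false

namespace Pool.Agent.H44.NQ

set_option maxRecDepth 100000 in
theorem refute5 : allB branch sol5 = true := by decide +kernel

end Pool.Agent.H44.NQ
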