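import Pool.Agent.H44.NQ.NineDefs

/-!
# Nine queens: the search, part 6 of 6 (computation)
-/

set_option autoImplicit false

namespace Pool.Agent.H44.NQ

set_option maxRecDepth 100000 in
theorem refute6 : searchB rest0 [] [cell0]
    (filt (fun s => Nat.beq (Nat.land s 1) 0) solList) 8 = true := by decide +kernel

set_option maxRecDepth 100000 in
theorem enough : atLeastB 8 solList = true := by decide +kernel

end Pool.Agent.H44.NQ
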