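import Pool.Agent.H44.NQ.NineA
import Pool.Agent.H44.NQ.NineB
import Pool.Agent.H44.NQ.NineC
import Pool.Agent.H44.NQ.NineD
import Pool.Agent.H44.NQ.NineE
import Pool.Agent.H44.NQ.NineF

/-!
# Nine queens: the parts of the search put together
-/

set_option autoImplicit false

namespace Pool.Agent.H44.NQ

theorem filt_cons (p : ℕ → Bool) (a : ℕ) (l : List ℕ) :
    filt p (a :: l) = Bool.rec (filt p l) (a :: filt p l) (p a) := rfl

theorem filt_eq (p : ℕ → Bool) (l : List ℕ) : filt p l = l.filter p := by
  induction l with
  | nil => rfl
  | cons a l ih =>
    rw [filt_cons, List.filter_cons, ih]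
    cases p a <;> rfl

theorem allB_cons {α : Type} (p : α → Bool) (a : α) (l : List α) :
    allB p (a :: l) = Bool.rec false (allB p l) (p a) := rfl

theorem allB_eq {α : Type} (p : α → Bool) (l : List α) : allB p l = l.all p := by
  induction l with
  | nil => rfl
  | cons a l ih =>
    rw [allB_cons, List.all_cons, ih]
    cases p a <;> rfl

theorem anyB_cons {α : Type} (p : α → Bool) (a : α) (l : List α) :
    anyB p (a :: l) = Bool.rec (anyB p l) true (p a) := rfl

theorem anyB_eq {α : Type} (p : α → Bool) (l : List α) : anyB p l = l.any p := by
  induction l with
  | nil => rfl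
  | cons a l ih =>
    rw [anyB_cons, List.any_cons, ih]
    cases p a <;> rfl

theorem atLeastB_eq (l : List ℕ) : ∀ n : ℕ, atLeastB n l = atLeast n l := by
  induction l with
  | nil => intro n; cases n <;> rfl
  | cons a l ih =>
    intro n
    cases n with
    | zero => rfl
    | succ n => exact ih n

theorem hit_eq (s b : ℕ) : (Bool.rec true false (Nat.beq (Nat.land s b) 0) : Bool) = hit s b := by
  unfold hit
  cases Nat.beq (Nat.land s b) 0 <;> rfl

theorem searchB_cons (x : Cell) (rest : List Cell) (C : List ℕ) (U : List Cell) (cands : List ℕ)
    (need : ℕ) : searchB (x :: rest) C U cands need =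
    Bool.rec
      (Bool.rec true
        (Bool.rec false
          (allB (fun s => Bool.rec
            (searchB rest (s :: C) U (filt (fun t => Nat.beq (Nat.land t s) 0) cands)
              (Nat.pred need)) true
            (Nat.beq (Nat.land s x.b) 0)) cands)
          (Bool.rec (searchB rest C (x :: U) (filt (fun s => Nat.beq (Nat.land s x.b) 0) cands) need)
            true (anyB (fun y => conf x y) U)))
        (atLeastB need cands))
      (searchB rest C U cands need)
      (anyB (fun s => Bool.rec true false (Nat.beq (Nat.land s x.b) 0)) C) := rfl

theorem searchB_eq : ∀ (cells : List Cell) (C : List ℕ) (U : List Cell) (cands : List ℕ)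
    (need : ℕ), searchB cells C U cands need = search cells C U cands need := by
  intro cells
  induction cells with
  | nil => intro C U cands need; rfl
  | cons x rest ih =>
    intro C U cands need
    rw [searchB_cons, search]
    simp only [ih, filt_eq, allB_eq, anyB_eq, atLeastB_eq, hit_eq, Nat.pred_eq_sub_one]
    have e1 : (fun s : ℕ => Nat.beq (Nat.land s x.b) 0) = fun s => !hit s x.b := by
      funext s; unfold hit; rw [Bool.not_not]
    have e2 : (fun s : ℕ => (Bool.rec (search rest (s :: C) U
        (cands.filter fun t => Nat.beq (Nat.land t s) 0) (need - 1)) true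
        (Nat.beq (Nat.land s x.b) 0) : Bool)) = fun s =>
        !hit s x.b || search rest (s :: C) U (cands.filter fun t => dis t s) (need - 1) := by
      funext s
      unfold hit dis
      cases Nat.beq (Nat.land s x.b) 0 <;> rfl
    rw [e1, e2]
    cases C.any (fun s => hit s x.b) with
    | true => rfl
    | false =>
      cases atLeast need cands with
      | false => rfl
      | true =>
        simp only [Bool.false_eq_true, if_false, if_true]
        cases U.any (fun y => conf x y) with
        | true => rfl
        | false =>
          rw [Bool.false_or]
          cases search rest C (x :: U) (cands.filter fun s => !hit s x.b) need <;> rfl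

/-- all squares, in the order in which they are treated -/
def order : List Cell := cell0 :: rest0

theorem refute : search order [] [] solList 8 = true := by
  rw [← searchB_eq, order, searchB_cons]
  rw [enough]
  have h6 := refute6
  have hb : ∀ l : List ℕ, allB (fun s => (Bool.rec
      (searchB rest0 (s :: []) [] (filt (fun t => Nat.beq (Nat.land t s) 0) solList)
        (Nat.pred 8)) true (Nat.beq (Nat.land s cell0.b) 0) : Bool)) l = allB branch l :=
    fun _ => rfl
  rw [hb]
  have hall : allB branch solList = true := by
    have h1 := refute1
    have h2 := refute2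
    have h3 := refute3
    have h4 := refute4
    have h5 := refute5
    rw [allB_eq] at h1 h2 h3 h4 h5 ⊢
    rw [solList, List.all_append, List.all_append, List.all_append, List.all_append,
      h1, h2, h3, h4, h5]
    rfl
  rw [hall]
  have h6' : searchB rest0 [] [cell0]
      (filt (fun s => Nat.beq (Nat.land s cell0.b) 0) solList) 8 = true := h6
  rw [h6']
  rfl

end Pool.Agent.H44.NQ
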