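import Pool.Agent.H44.NQ.NineDefs

/-!
# Nine queens: the list of the 352 patterns is complete
-/

set_option autoImplicit false

namespace Pool.Agent.H44.NQ

/-- column `j` is compatible with the columns listed (the nearest row, at distance `d`, first) -/
def safe (j : ℕ) : ℕ → List ℕ → Bool
  | _, [] => true
  | d, a :: l => !(Nat.beq a j) && !(Nat.beq (a + d) j) && !(Nat.beq (j + d) a) && safe j (d + 1) l

/-- all placements in the first `k` rows -/
def gen : ℕ → List (List ℕ)
  | 0 => [[]]
  | k + 1 => (gen k).flatMap fun l =>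
      ((List.range 9).filter fun j => safe j 1 l).map fun j => j :: l

/-- the code of a placement -/
def maskL : List ℕ → ℕ
  | [] => 0
  | a :: l => Nat.lor (maskL l) (2 ^ (9 * l.length + a))

set_option maxRecDepth 100000 in
theorem gen_mask : (gen 9).all (fun l => solList.any fun s => Nat.beq s (maskL l)) = true := by
  decide +kernel

/-- the columns of rows `k - 1, …, 0` -/
def pre (f : ℕ → ℕ) : ℕ → List ℕ
  | 0 => []
  | k + 1 => f k :: pre f k

theorem pre_length (f : ℕ → ℕ) (k : ℕ) : (pre f k).length = k := by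
  induction k with
  | zero => rfl
  | succ k ih => simp [pre, ih]

theorem safe_pre (f : ℕ → ℕ) (j : ℕ) : ∀ k d : ℕ,
    (∀ i < k, f i ≠ j ∧ f i + (d + (k - 1 - i)) ≠ j ∧ j + (d + (k - 1 - i)) ≠ f i) →
    safe j d (pre f k) = true := by
  intro k
  induction k with
  | zero => intro d _; rfl
  | succ k ih =>
    intro d h
    have h0 := h k (Nat.lt_succ_self k)
    have e0 : k + 1 - 1 - k = 0 := by omega
    rw [e0, Nat.add_zero] at h0
    have hr : safe j (d + 1) (pre f k) = true := by
      apply ih
      intro i hi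
      have := h i (Nat.lt_succ_of_lt hi)
      have e : d + 1 + (k - 1 - i) = d + (k + 1 - 1 - i) := by omega
      rw [e]
      exact this
    simp only [pre, safe, Bool.and_eq_true, Bool.not_eq_true', hr, and_true]
    refine ⟨⟨?_, ?_⟩, ?_⟩
    · rw [← Bool.not_eq_true]; intro hh; exact h0.1 (Nat.eq_of_beq_eq_true hh)
    · rw [← Bool.not_eq_true]; intro hh; exact h0.2.1 (Nat.eq_of_beq_eq_true hh)
    · rw [← Bool.not_eq_true]; intro hh; exact h0.2.2 (Nat.eq_of_beq_eq_true hh)

theorem pre_mem_gen (f : ℕ → ℕ) : ∀ k : ℕ, (∀ i < k, f i < 9) →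
    (∀ i i', i < i' → i' < k →
      f i ≠ f i' ∧ f i + (i' - i) ≠ f i' ∧ f i' + (i' - i) ≠ f i) → pre f k ∈ gen k := by
  intro k
  induction k with
  | zero => intro _ _; simp [pre, gen]
  | succ k ih =>
    intro h1 h2
    have hk := ih (fun i hi => h1 i (Nat.lt_succ_of_lt hi))
      (fun i i' hi hi' => h2 i i' hi (Nat.lt_succ_of_lt hi'))
    simp only [gen, List.mem_flatMap, List.mem_map, List.mem_filter, List.mem_range]
    refine ⟨pre f k, hk, f k, ⟨h1 k (Nat.lt_succ_self k), ?_⟩, rfl⟩
    apply safe_pre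
    intro i hi
    have := h2 i k hi (Nat.lt_succ_self k)
    have e : 1 + (k - 1 - i) = k - i := by omega
    rw [e]
    exact this

theorem testBit_maskL (f : ℕ → ℕ) (x : ℕ) : ∀ k : ℕ,
    (maskL (pre f k)).testBit x = true ↔ ∃ i < k, x = 9 * i + f i := by
  intro k
  induction k with
  | zero => simp [pre, maskL]
  | succ k ih =>
    have e : maskL (pre f (k + 1)) = maskL (pre f k) ||| 2 ^ (9 * k + f k) := by
      show Nat.lor (maskL (pre f k)) (2 ^ (9 * (pre f k).length + f k)) = _
      rw [pre_length]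
      rfl
    rw [e, Nat.testBit_or, Bool.or_eq_true, ih, Nat.testBit_two_pow, decide_eq_true_eq]
    constructor
    · rintro (⟨i, hi, rfl⟩ | h)
      · exact ⟨i, Nat.lt_succ_of_lt hi, rfl⟩
      · exact ⟨k, Nat.lt_succ_self k, h.symm⟩
    · rintro ⟨i, hi, rfl⟩
      rcases Nat.lt_succ_iff_lt_or_eq.mp hi with h | h
      · exact Or.inl ⟨i, h, rfl⟩
      · subst h; exact Or.inr rfl

theorem hit_iff (s x : ℕ) : hit s (2 ^ x) = true ↔ s.testBit x = true := by
  have h : Nat.land s (2 ^ x) = (s.testBit x).toNat * 2 ^ x := Nat.and_two_pow s x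
  have hp : 0 < 2 ^ x := Nat.pow_pos (by norm_num)
  unfold hit
  rw [h]
  cases s.testBit x with
  | false => simp
  | true =>
    simp only [Bool.toNat_true, one_mul, Bool.not_eq_true', iff_true]
    rw [← Bool.not_eq_true]
    intro hh
    have := Nat.eq_of_beq_eq_true hh
    omega

theorem dis_of (s t : ℕ) (h : ∀ x, ¬ (s.testBit x = true ∧ t.testBit x = true)) :
    dis s t = true := by
  unfold dis
  have : Nat.land s t = 0 := by
    apply Nat.eq_of_testBit_eq
    intro x
    have e : (Nat.land s t).testBit x = (s.testBit x && t.testBit x) := Nat.testBit_and s t x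
    rw [e, Nat.zero_testBit]
    rw [← Bool.not_eq_true, Bool.and_eq_true]
    exact h x
  rw [this]
  rfl

end Pool.Agent.H44.NQ
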