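import Pool.Agent.H44.NQ.NineComb

/-!
# Nine queens: what a successful search means
-/

set_option autoImplicit false

namespace Pool.Agent.H44.NQ

theorem conf_iff (x y : Cell) : conf x y = true ↔ (x.r = y.r ∨ x.c = y.c) ∧ x.b ≠ y.b := by
  unfold conf
  rw [Bool.and_eq_true, Bool.or_eq_true, Bool.not_eq_true', Nat.beq_eq, Nat.beq_eq,
    ← Bool.not_eq_true, Nat.beq_eq]

theorem length_lt_of_atLeast : ∀ (need : ℕ) (l : List ℕ), atLeast need l = false →
    l.length < need := by
  intro need
  induction need with
  | zero => intro l h; cases l <;> simp [atLeast] at h
  | succ k ih =>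
    intro l h
    cases l with
    | nil => simp
    | cons a l =>
      have := ih l h
      simpa using this

/-- the square `x` is covered by the family `F` -/
def Cov (F : Finset ℕ) (x : Cell) : Prop := ∃ s ∈ F, hit s x.b = true

theorem search_sound (F : Finset ℕ)
    (hdis : ∀ s ∈ F, ∀ t ∈ F, t ≠ s → dis t s = true)
    (hrow : ∀ x y : Cell, x ∈ order → y ∈ order → conf x y = true → Cov F x ∨ Cov F y) :
    ∀ (cells : List Cell), (∀ x ∈ cells, x ∈ order) →
    ∀ (C : List ℕ) (U : List Cell) (cands : List ℕ) (need : ℕ),
    (∀ s ∈ C, s ∈ F) → (∀ y ∈ U, y ∈ order ∧ ¬ Cov F y) → (∀ s ∈ F, s ∉ C → s ∈ cands) →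
    need ≤ (F \ C.toFinset).card → search cells C U cands need ≠ true := by
  intro cells
  induction cells with
  | nil => intro _ C U cands need _ _ _ _ h; simp [search] at h
  | cons x rest ih =>
    intro hcells C U cands need hC hU hF hneed h
    have hx : x ∈ order := hcells x List.mem_cons_self
    have hrest : ∀ y ∈ rest, y ∈ order := fun y hy => hcells y (List.mem_cons_of_mem _ hy)
    unfold search at h
    by_cases h1 : C.any (fun s => hit s x.b) = true
    · rw [if_pos h1] at h
      exact ih hrest C U cands need hC hU hF hneed h
    · rw [if_neg h1] at h
      by_cases h2 : atLeast need cands = true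
      · rw [if_pos h2, Bool.and_eq_true] at h
        obtain ⟨ha, hb⟩ := h
        by_cases hc : Cov F x
        · obtain ⟨s, hs, hsx⟩ := hc
          have hsC : s ∉ C := by
            intro hmem
            exact h1 (List.any_eq_true.mpr ⟨s, hmem, hsx⟩)
          have hsc := hF s hs hsC
          have hb' := List.all_eq_true.mp hb s hsc
          rw [Bool.or_eq_true, Bool.not_eq_true'] at hb'
          rcases hb' with hb' | hb'
          · rw [hsx] at hb'; exact absurd hb' (by simp)
          · refine ih hrest (s :: C) U (cands.filter fun t => dis t s) (need - 1) ?_ hU ?_ ?_ hb'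
            · intro t ht
              rcases List.mem_cons.mp ht with rfl | ht
              · exact hs
              · exact hC t ht
            · intro t ht htC
              rw [List.mem_cons, not_or] at htC
              exact List.mem_filter.mpr ⟨hF t ht htC.2, hdis s hs t ht htC.1⟩
            · have e : F \ (s :: C).toFinset = (F \ C.toFinset).erase s := by
                ext t
                simp only [List.toFinset_cons, Finset.mem_sdiff, Finset.mem_insert, Finset.mem_erase,
                  not_or]
                tauto
              rw [e, Finset.card_erase_of_mem (by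
                simp only [Finset.mem_sdiff, List.mem_toFinset]; exact ⟨hs, hsC⟩)]
              exact Nat.sub_le_sub_right hneed 1
        · rw [Bool.or_eq_true] at ha
          rcases ha with ha | ha
          · obtain ⟨y, hy, hxy⟩ := List.any_eq_true.mp ha
            rcases hrow x y hx (hU y hy).1 hxy with h3 | h3
            · exact hc h3
            · exact (hU y hy).2 h3
          · refine ih hrest C (x :: U) (cands.filter fun s => !hit s x.b) need hC ?_ ?_ hneed ha
            · intro y hy
              rcases List.mem_cons.mp hy with rfl | hy
              · exact ⟨hx, hc⟩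
              · exact hU y hy
            · intro s hs hsC
              refine List.mem_filter.mpr ⟨hF s hs hsC, ?_⟩
              rw [Bool.not_eq_true', ← Bool.not_eq_true]
              intro hh
              exact hc ⟨s, hs, hh⟩
      · have h3 := length_lt_of_atLeast need cands (Bool.eq_false_iff.mpr h2)
        have h4 : (F \ C.toFinset).card ≤ cands.toFinset.card := by
          apply Finset.card_le_card
          intro s hs
          simp only [Finset.mem_sdiff, List.mem_toFinset] at hs ⊢
          exact hF s hs.1 hs.2
        have h5 := List.toFinset_card_le cands
        omega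

end Pool.Agent.H44.NQ
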