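import Pool.Agent.H44.NQ.Basic
import Pool.Agent.H44.NQ.NineGen
import Pool.Agent.H44.NQ.NineSound

/-!
# Nine queens: `Q 9 = 7`
-/

set_option autoImplicit false

namespace Pool.Agent.H44.NQ

/-- a placement as a function on the natural numbers -/
def ext (p : Fin 9 → Fin 9) (i : ℕ) : ℕ := if h : i < 9 then (p ⟨i, h⟩ : ℕ) else 0

theorem ext_fin (p : Fin 9 → Fin 9) (i : Fin 9) : ext p (i : ℕ) = (p i : ℕ) := by
  unfold ext
  rw [dif_pos i.isLt]

/-- the code of a placement -/
def code (p : Fin 9 → Fin 9) : ℕ := maskL (pre (ext p) 9)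

theorem code_mem (p : Fin 9 → Fin 9) (hp : Good 9 p) : code p ∈ solList := by
  have hg : pre (ext p) 9 ∈ gen 9 := by
    apply pre_mem_gen
    · intro i hi
      unfold ext
      rw [dif_pos hi]
      exact (p ⟨i, hi⟩).isLt
    · intro i i' hlt hi'
      have hi : i < 9 := lt_trans hlt hi'
      have e1 : ext p i = (p ⟨i, hi⟩ : ℕ) := ext_fin p ⟨i, hi⟩
      have e2 : ext p i' = (p ⟨i', hi'⟩ : ℕ) := ext_fin p ⟨i', hi'⟩
      rw [e1, e2]
      have h := hp ⟨i, hi⟩ ⟨i', hi'⟩ (fun h => by
        have := congrArg Fin.val h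
        simp only at this
        omega)
      obtain ⟨h1, h2, h3⟩ := h
      simp only at h2 h3
      refine ⟨fun h => h1 (Fin.ext h), ?_, ?_⟩
      · intro h
        apply h2
        omega
      · intro h
        apply h3
        omega
  have h1 := List.all_eq_true.mp gen_mask _ hg
  obtain ⟨s, hs, he⟩ := List.any_eq_true.mp h1
  have := Nat.eq_of_beq_eq_true he
  unfold code
  rw [← this]
  exact hs

theorem testBit_code (p : Fin 9 → Fin 9) (r c : ℕ) (hr : r < 9) (hc : c < 9) :
    (code p).testBit (9 * r + c) = true ↔ (p ⟨r, hr⟩ : ℕ) = c := by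
  unfold code
  rw [testBit_maskL]
  constructor
  · rintro ⟨i, hi, h⟩
    have e : ext p i = (p ⟨i, hi⟩ : ℕ) := ext_fin p ⟨i, hi⟩
    have hl := (p ⟨i, hi⟩).isLt
    have hri : r = i := by omega
    subst hri
    omega
  · intro h
    refine ⟨r, hr, ?_⟩
    have e : ext p r = (p ⟨r, hr⟩ : ℕ) := ext_fin p ⟨r, hr⟩
    omega

theorem order_ok : order.all (fun x => Nat.beq x.b (2 ^ (9 * x.r + x.c)) && Nat.blt x.r 9 &&
    Nat.blt x.c 9) = true := by decide +kernel

theorem order_cell (x : Cell) (hx : x ∈ order) : x.b = 2 ^ (9 * x.r + x.c) ∧ x.r < 9 ∧ x.c < 9 := by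
  have h := List.all_eq_true.mp order_ok x hx
  rw [Bool.and_eq_true, Bool.and_eq_true] at h
  refine ⟨Nat.eq_of_beq_eq_true h.1.1, ?_, ?_⟩
  · exact Nat.blt_eq.mp h.1.2
  · exact Nat.blt_eq.mp h.2

theorem hit_code (p : Fin 9 → Fin 9) (x : Cell) (hx : x ∈ order) (hr : x.r < 9) :
    hit (code p) x.b = true ↔ (p ⟨x.r, hr⟩ : ℕ) = x.c := by
  obtain ⟨hb, _, hc⟩ := order_cell x hx
  rw [hb, hit_iff]
  exact testBit_code p x.r x.c hr hc

theorem not_packs_eight : ¬ Packs 9 8 := by
  intro hP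
  obtain ⟨p, hp, hd⟩ := packs_iff.mp hP
  classical
  have hbit : ∀ a b : Fin 8, a ≠ b → ∀ x, ¬ ((code (p a)).testBit x = true ∧
      (code (p b)).testBit x = true) := by
    rintro a b hab x ⟨h1, h2⟩
    have h1' := (testBit_maskL (ext (p a)) x 9).mp h1
    have h2' := (testBit_maskL (ext (p b)) x 9).mp h2
    obtain ⟨i, hi, h1'⟩ := h1'
    obtain ⟨j, hj, h2'⟩ := h2'
    have e1 : ext (p a) i = (p a ⟨i, hi⟩ : ℕ) := ext_fin _ ⟨i, hi⟩
    have e2 : ext (p b) j = (p b ⟨j, hj⟩ : ℕ) := ext_fin _ ⟨j, hj⟩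
    have l1 := (p a ⟨i, hi⟩).isLt
    have l2 := (p b ⟨j, hj⟩).isLt
    have hij : i = j := by omega
    subst hij
    exact hd a b hab ⟨i, hi⟩ (Fin.ext (by omega))
  have hinj : Function.Injective fun a : Fin 8 => code (p a) := by
    intro a b hab
    by_contra hne
    have hx := (testBit_code (p a) 0 (p a ⟨0, by norm_num⟩ : ℕ) (by norm_num)
      (p a ⟨0, by norm_num⟩).isLt).mpr rfl
    refine hbit a b hne _ ⟨hx, ?_⟩
    have hab' : code (p a) = code (p b) := hab
    rw [← hab']
    exact hx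
  set F : Finset ℕ := Finset.univ.image fun a : Fin 8 => code (p a) with hF
  have hFmem : ∀ s, s ∈ F ↔ ∃ a, code (p a) = s := by
    intro s
    rw [hF]
    simp
  have hcard : F.card = 8 := by
    rw [hF, Finset.card_image_of_injective _ hinj]
    simp
  refine search_sound F ?_ ?_ order (fun x hx => hx) [] [] solList 8 ?_ ?_ ?_ ?_ refute
  · intro s hs t ht hst
    obtain ⟨a, rfl⟩ := (hFmem s).mp hs
    obtain ⟨b, rfl⟩ := (hFmem t).mp ht
    exact dis_of _ _ (hbit b a (fun h => hst (by rw [h])))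
  · intro x y hx hy hxy
    obtain ⟨hxb, hxr, hxc⟩ := order_cell x hx
    obtain ⟨hyb, hyr, hyc⟩ := order_cell y hy
    by_contra hno
    rw [not_or] at hno
    obtain ⟨hnx, hny⟩ := hno
    have hcx : ∀ a, (p a ⟨x.r, hxr⟩ : ℕ) ≠ x.c := by
      intro a h
      exact hnx ⟨code (p a), (hFmem _).mpr ⟨a, rfl⟩, (hit_code (p a) x hx hxr).mpr h⟩
    have hcy : ∀ a, (p a ⟨y.r, hyr⟩ : ℕ) ≠ y.c := by
      intro a h
      exact hny ⟨code (p a), (hFmem _).mpr ⟨a, rfl⟩, (hit_code (p a) y hy hyr).mpr h⟩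
    obtain ⟨hrc, hbne⟩ := (conf_iff x y).mp hxy
    rcases hrc with hr | hc
    · -- same row
      have hcne : x.c ≠ y.c := by
        intro h
        apply hbne
        rw [hxb, hyb, hr, h]
      have hyr' : (⟨y.r, hyr⟩ : Fin 9) = ⟨x.r, hxr⟩ := Fin.ext hr.symm
      rw [hyr'] at hcy
      have hmaps : ∀ a ∈ (Finset.univ : Finset (Fin 8)), p a ⟨x.r, hxr⟩ ∈
          (Finset.univ : Finset (Fin 9)) \ {⟨x.c, hxc⟩, ⟨y.c, hyc⟩} := by
        intro a _
        simp only [Finset.mem_sdiff, Finset.mem_univ, true_and, Finset.mem_insert,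
          Finset.mem_singleton, not_or]
        exact ⟨fun h => hcx a (by rw [h]), fun h => hcy a (by rw [h])⟩
      have hle := Finset.card_le_card_of_injOn _ hmaps (by
        intro a _ b _ hab
        by_contra hne
        exact hd a b hne _ hab)
      rw [Finset.card_sdiff_of_subset (Finset.subset_univ _), Finset.card_pair (by
        intro h; exact hcne (congrArg Fin.val h))] at hle
      simp at hle
    · -- same column
      have hrne : x.r ≠ y.r := by
        intro h
        apply hbne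
        rw [hxb, hyb, hc, h]
      rw [← hc] at hcy
      have hsurj : ∀ a, ∃ i : Fin 9, p a i = ⟨x.c, hxc⟩ := by
        intro a
        have hi : Function.Injective (p a) := by
          intro i j hij
          by_contra hne
          exact (hp a i j hne).1 hij
        exact (Finite.injective_iff_surjective.mp hi) _
      choose w hw using hsurj
      have hmaps : ∀ a ∈ (Finset.univ : Finset (Fin 8)), w a ∈
          (Finset.univ : Finset (Fin 9)) \ {⟨x.r, hxr⟩, ⟨y.r, hyr⟩} := by
        intro a _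
        simp only [Finset.mem_sdiff, Finset.mem_univ, true_and, Finset.mem_insert,
          Finset.mem_singleton, not_or]
        refine ⟨fun h => hcx a ?_, fun h => hcy a ?_⟩
        · rw [← h, hw a]
        · rw [← h, hw a]
      have hle := Finset.card_le_card_of_injOn _ hmaps (by
        intro a _ b _ hab
        by_contra hne
        refine hd a b hne (w a) ?_
        have hab' : w a = w b := hab
        rw [hw a, hab', hw b])
      rw [Finset.card_sdiff_of_subset (Finset.subset_univ _), Finset.card_pair (by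
        intro h; exact hrne (congrArg Fin.val h))] at hle
      simp at hle
  · intro s hs
    simp at hs
  · intro y hy
    simp at hy
  · intro s hs _
    obtain ⟨a, rfl⟩ := (hFmem s).mp hs
    exact code_mem (p a) (hp a)
  · rw [List.toFinset_nil, Finset.sdiff_empty, hcard]

/-- seven disjoint patterns -/
def seven : Fin 7 → Fin 9 → Fin 9 := ![![8, 6, 3, 1, 7, 5, 0, 2, 4], ![7, 5, 8, 2, 0, 3, 6, 4, 1],
  ![6, 3, 1, 4, 8, 0, 2, 7, 5], ![4, 2, 7, 3, 6, 8, 1, 5, 0], ![3, 8, 2, 5, 1, 6, 4, 0, 7],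
  ![2, 0, 5, 7, 4, 1, 3, 8, 6], ![1, 4, 6, 0, 2, 7, 5, 3, 8]]

theorem packs_seven : Packs 9 7 := by
  rw [packs_iff]
  refine ⟨seven, ?_, ?_⟩
  · unfold Good
    decide +kernel
  · decide +kernel

theorem q_nine : Q 9 = 7 := by
  apply le_antisymm
  · apply q_le_of
    intro l hl
    by_contra h
    exact not_packs_eight (hl.mono (by omega))
  · exact le_q (by norm_num) packs_seven

end Pool.Agent.H44.NQ
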